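import Mathlib

set_option autoImplicit false

namespace Pool.Agent.H.MP_3dabd4_an
open Polynomial Metric Filter Topology Asymptotics Bornology

lemma lift {p D N N' : ℂ → ℂ} (cp : Continuous p) (cD : Continuous D) (hN : ∀ z, N z = z - p z / D z)
    (hd : ∀ z, D z ≠ 0 → HasStrictDerivAt N (N' z) z) (h0 : ∀ z, D z = 0 → p z ≠ 0)
    (h1 : ∀ z, D z ≠ 0 → p z ≠ 0 → N' z ≠ 0) {R B : ℝ} (hB : ∀ z, R ≤ ‖z‖ → D z ≠ 0 → ‖p z / D z‖ ≤ B)
    {φ : ℂ → ℂ} (dφ : DifferentiableOn ℂ φ (ball 0 1)) (hφ : ∀ w ∈ ball (0 : ℂ) 1, p (φ w) ≠ 0)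
    {z : ℂ} (hz : D z ≠ 0) (e : φ 0 = N z) :
    ∃ ψ : ℂ → ℂ, ψ 0 = z ∧ ∀ w ∈ ball (0 : ℂ) 1, N (ψ w) = φ w ∧ p (ψ w) ≠ 0 ∧
      HasDerivAt ψ (deriv φ w / N' (ψ w)) w := by
  have op : IsOpen {z | D z ≠ 0} := isOpen_ne_fun cD continuous_const
  let f : {z | D z ≠ 0} → ℂ := fun z => N z
  have cf : Continuous f := continuous_iff_continuousAt.2 fun z =>
    (hd z z.2).hasDerivAt.continuousAt.comp continuous_subtype_val.continuousAt
  have pr : IsProperMap f := isProperMap_iff_isCompact_preimage.2 ⟨cf, fun K hK => by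
    rw [Subtype.isCompact_iff]
    obtain ⟨r, hr⟩ := hK.isBounded.subset_closedBall 0
    have c1 : IsCompact ((closedBall (0 : ℂ) (max R (r + B)) ×ˢ K) ∩ {q : ℂ × ℂ | (q.1 - q.2) * D q.1 = p q.1}) :=
      ((isCompact_closedBall _ _).prod hK).inter_right (isClosed_eq (by fun_prop) (by fun_prop))
    refine (congrArg IsCompact ?_).mp (c1.image continuous_fst)
    ext z
    constructor
    · rintro ⟨⟨z, w⟩, ⟨⟨-, h3⟩, h4⟩, rfl⟩
      have h4 : (z - w) * D z = p z := h4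
      have hz : D z ≠ 0 := fun h => h0 z h (by rw [← h4, h, mul_zero])
      refine ⟨⟨z, hz⟩, ?_, rfl⟩
      have : N z = w := by rw [hN, ← h4, mul_div_cancel_right₀ _ hz]; ring
      change N z ∈ K
      rwa [this]
    · rintro ⟨⟨z, hz⟩, h2, rfl⟩
      have h2 : N z ∈ K := h2
      refine ⟨(z, N z), ⟨⟨?_, h2⟩, ?_⟩, rfl⟩
      · rw [mem_closedBall_zero_iff]
        rcases le_total R ‖z‖ with h | h
        · have h5 := mem_closedBall_zero_iff.1 (hr h2)
          have h6 := norm_add_le (N z) (p z / D z)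
          rw [hN, sub_add_cancel, ← hN] at h6
          exact le_max_of_le_right (by linarith [hB z h hz])
        · exact le_max_of_le_left h
      · change (z - N z) * D z = p z
        rw [hN, sub_sub_cancel, div_mul_cancel₀ _ hz]⟩
  have pz : ∀ z, p (N z) ≠ 0 → p z ≠ 0 := fun z h h2 => h (by rw [hN, h2, zero_div, sub_zero, h2])
  have lh : IsLocalHomeomorphOn f (f ⁻¹' {w | p w ≠ 0}) := by
    have l1 : IsLocalHomeomorphOn N {z | D z ≠ 0 ∧ p z ≠ 0} := fun z hz =>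
      ⟨_, ((hd z hz.1).hasStrictFDerivAt_equiv (h1 z hz.1 hz.2)).mem_toOpenPartialHomeomorph_source, by simp⟩
    exact l1.comp op.isOpenEmbedding_subtypeVal.isLocalHomeomorph.isLocalHomeomorphOn
      fun z hz => ⟨z.2, pz z hz⟩
  have cov : IsCoveringMapOn f {w | p w ≠ 0} := pr.isClosedMap.isCoveringMapOn_of_isLocalHomeomorphOn
    (fun w hw => (pr.isCompact_preimage isCompact_singleton).finite
      (IsDiscrete.of_openPartialHomeomorph f subset_rfl fun x hx => by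
        obtain ⟨g, h2, h3⟩ := lh x (by rw [Set.mem_preimage, show f x = w from hx]; exact hw)
        exact ⟨g, h2, h3.symm⟩)) lh
  have : ContractibleSpace (ball (0 : ℂ) 1) := (convex_ball _ _).contractibleSpace ⟨0, mem_ball_self one_pos⟩
  have : LocallyPathConnectedSpace (ball (0 : ℂ) 1) := isOpen_ball.locallyPathConnectedSpace
  obtain ⟨F, ⟨F0, FN⟩, -⟩ := cov.existsUnique_continuousMap_lifts
    ⟨fun w : ball (0 : ℂ) 1 => φ w, dφ.continuousOn.domRestrict⟩ (a₀ := ⟨0, mem_ball_self one_pos⟩)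
    (e₀ := ⟨z, hz⟩) e.symm fun w => hφ w w.2
  classical
  let ψ : ℂ → ℂ := fun w => if h : w ∈ ball (0 : ℂ) 1 then F ⟨w, h⟩ else 0
  have e1 : ∀ w (h : w ∈ ball (0 : ℂ) 1), ψ w = F ⟨w, h⟩ := fun w h => dif_pos h
  have cψ : ContinuousOn ψ (ball 0 1) := by
    rw [continuousOn_iff_continuous_domRestrict]
    exact (continuous_subtype_val.comp F.continuous).congr fun w => (e1 w w.2).symm
  have e2 : ∀ w ∈ ball (0 : ℂ) 1, N (ψ w) = φ w := fun w h => by
    rw [e1 w h]; exact congrFun FN ⟨w, h⟩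
  refine ⟨ψ, by rw [e1 0 (mem_ball_self one_pos), F0], fun w h => ?_⟩
  have d0 : D (ψ w) ≠ 0 := by rw [e1 w h]; exact (F ⟨w, h⟩).2
  have p0 : p (ψ w) ≠ 0 := pz _ (by rw [e2 w h]; exact hφ w h)
  refine ⟨e2 w h, p0, ?_⟩
  have nb := isOpen_ball.mem_nhds h
  have s := hd _ d0
  have n0 := h1 _ d0 p0
  have i1 := s.to_localInverse n0
  have i2 := (s.hasStrictFDerivAt_equiv n0).eventually_left_inverse
  have i3 := i1.hasDerivAt.comp_of_eq w (dφ.differentiableAt nb).hasDerivAt (e2 w h)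
  rw [div_eq_inv_mul]
  refine i3.congr_of_eventuallyEq ?_
  filter_upwards [(cψ.continuousAt nb).eventually i2, nb] with v h2 h3
  rw [Function.comp, ← e2 v h3]
  exact h2.symm

def Good (p : ℂ → ℂ) (a : ℂ) (ρ : ℝ) (z d : ℂ) : Prop :=
  ∃ φ : ℂ → ℂ, DifferentiableOn ℂ φ (ball 0 1) ∧ (∀ w ∈ ball (0 : ℂ) 1, p (φ w) ≠ 0 ∧ ρ ≤ ‖φ w - a‖) ∧
    φ 0 = z ∧ deriv φ 0 = d

lemma bound {p : ℂ → ℂ} {a z d : ℂ} {ρ : ℝ} (hρ : 0 < ρ) (h : Good p a ρ z d) :
    ‖d‖ ≤ 2 / ρ * ‖z - a‖ ^ 2 := by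
  obtain ⟨φ, dφ, h1, rfl, rfl⟩ := h
  have b0 : (0 : ℂ) ∈ ball (0 : ℂ) 1 := mem_ball_self one_pos
  have ne : ∀ w ∈ ball (0 : ℂ) 1, φ w - a ≠ 0 := fun w hw => norm_pos_iff.1 (hρ.trans_le (h1 w hw).2)
  have le : ∀ w ∈ ball (0 : ℂ) 1, ‖(φ w - a)⁻¹‖ ≤ 1 / ρ := fun w hw => by
    rw [norm_inv, one_div]; exact inv_anti₀ hρ (h1 w hw).2
  have h2 := Complex.norm_deriv_le_div_of_mapsTo_ball (f := fun w => (φ w - a)⁻¹) (c := 0) (R₁ := 1) (R₂ := 2 / ρ)
    ((dφ.sub_const a).inv ne) (fun w hw => by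
      rw [mem_closedBall, dist_eq_norm]
      refine (norm_sub_le _ _).trans ((add_le_add (le w hw) (le 0 b0)).trans_eq (by ring))) one_pos
  rw [(((dφ.differentiableAt (isOpen_ball.mem_nhds b0)).hasDerivAt.sub_const a).fun_inv (ne 0 b0)).deriv,
    norm_div, norm_neg, norm_pow, div_one, div_le_iff₀ (pow_pos (norm_pos_iff.2 (ne 0 b0)) 2)] at h2
  exact h2

lemma start {p : ℂ → ℂ} {a z : ℂ} {ρ R : ℝ} (h : ∀ w, R ≤ ‖w‖ → p w ≠ 0 ∧ ρ ≤ ‖w - a‖) (hz : R ≤ ‖z‖) :
    Good p a ρ z (‖z‖ - R : ℝ) := by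
  refine ⟨fun w => z + (‖z‖ - R : ℝ) * w, by fun_prop, fun w hw => h _ ?_, by simp, by simp⟩
  have h1 := norm_sub_le (z + (‖z‖ - R : ℝ) * w) ((‖z‖ - R : ℝ) * w)
  rw [add_sub_cancel_right, norm_mul, Complex.norm_real, Real.norm_of_nonneg (sub_nonneg.2 hz)] at h1
  have := (mem_ball_zero_iff.1 hw).le
  nlinarith [sub_nonneg.2 hz]

lemma wt {x y K C : ℝ} (hC : 0 ≤ C) (hK : K = 4 * C) (hx : 1 ≤ x) (hy : x + 1 / 2 ≤ y) :
    (1 - K / x) * (1 + C / x ^ 2) ≤ 1 - K / y := by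
  have x0 : 0 < x := by linarith
  have h1 : K / y ≤ K / (x + 1 / 2) := div_le_div_of_nonneg_left (by linarith) (by linarith) hy
  have h2 : C / x ^ 2 ≤ K / x - K / (x + 1 / 2) := by
    rw [div_sub_div _ _ x0.ne' (by linarith), div_le_div_iff₀ (by positivity) (by positivity), hK]
    nlinarith [mul_nonneg hC (mul_nonneg x0.le x0.le), mul_nonneg (mul_nonneg hC x0.le) (sub_nonneg.2 hx)]
  have h3 : 0 ≤ K / x * (C / x ^ 2) := by rw [hK]; positivity
  nlinarith

lemma main (P : ℂ[X]) (c : ℂ) (hP : 0 < P.natDegree) (hs : ∀ z, P.eval z = 0 → P.derivative.eval z ≠ 0)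
    (hZ : ∀ z, (C c * (C c * P + P.derivative) + (C c * P + P.derivative).derivative).eval z = 0 →
      P.eval z = 0 ∨ (C c * P + P.derivative).eval z = 0) : c = 0 := by
  by_contra c0
  have P0 : P ≠ 0 := fun h => by simp [h] at hP
  obtain ⟨D, hD⟩ : ∃ D, D = C c * P + P.derivative := ⟨_, rfl⟩
  rw [← hD] at hZ
  have dl : P.derivative.degree < P.degree := degree_derivative_lt P0
  have dD : D.degree = P.degree := by
    rw [hD, degree_add_eq_left_of_degree_lt (by rwa [degree_C_mul c0]), degree_C_mul c0]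
  have evD : ∀ z, D.eval z = c * P.eval z + P.derivative.eval z := fun z => by simp [hD]
  let N : ℂ → ℂ := fun z => z - P.eval z / D.eval z
  let N' : ℂ → ℂ := fun z => P.eval z * (C c * D + D.derivative).eval z / D.eval z ^ 2
  have hd : ∀ z, D.eval z ≠ 0 → HasStrictDerivAt N (N' z) z := fun z hz => by
    refine ((hasStrictDerivAt_id z).sub ((P.hasStrictDerivAt z).div (D.hasStrictDerivAt z) hz)).congr_deriv ?_
    simp only [N', eval_add, eval_mul, eval_C]
    field_simp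
    rw [evD]; ring
  have h0 : ∀ z, D.eval z = 0 → P.eval z ≠ 0 := fun z h h2 => hs z h2 (by rwa [evD, h2, mul_zero, zero_add] at h)
  have h1 : ∀ z, D.eval z ≠ 0 → P.eval z ≠ 0 → N' z ≠ 0 := fun z h h2 =>
    div_ne_zero (mul_ne_zero h2 fun h3 => (hZ z h3).elim h2 h) (pow_ne_zero _ h)
  obtain ⟨a, ha⟩ := Complex.exists_root (f := P) (natDegree_pos_iff_degree_pos.1 hP)
  have ha : P.eval a = 0 := ha
  have Da : D.eval a ≠ 0 := fun h => h0 a h ha
  obtain ⟨ρ, ρ0, hρ⟩ : ∃ ρ > 0, ∀ z, ‖z - a‖ < ρ → ‖N z - a‖ ≤ ‖z - a‖ := by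
    have := (hd a Da).hasDerivAt.isLittleO.def one_pos
    obtain ⟨ρ, ρ0, h⟩ := Metric.eventually_nhds_iff.1 this
    refine ⟨ρ, ρ0, fun z hz => ?_⟩
    have := h (y := z) (by rwa [dist_eq_norm])
    simpa [N', N, ha] using this
  have o1 : P.derivative.eval =o[cobounded ℂ] D.eval := isLittleO_cobounded_of_degree_lt (by rwa [dD])
  have o2 : (X ^ 2 * (P * P.derivative.derivative - P.derivative ^ 2)).eval =O[cobounded ℂ] (D ^ 2).eval := by
    refine isBigO_cobounded_of_degree_le (degree_le_of_natDegree_le ?_ |>.trans (degree_eq_natDegree ?_).ge)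
    · have n1 : P.derivative.natDegree < P.natDegree := natDegree_derivative_lt hP.ne'
      have nD : D.natDegree = P.natDegree := natDegree_eq_of_degree_eq dD
      rw [natDegree_pow, nD]
      refine natDegree_mul_le.trans ?_
      rw [natDegree_X_pow]
      have n2 : (P * P.derivative.derivative).natDegree + 2 ≤ 2 * P.natDegree := by
        by_cases h : P.derivative.natDegree = 0
        · rw [derivative_of_natDegree_zero h, mul_zero, natDegree_zero]; omega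
        · have := natDegree_derivative_lt h
          have := natDegree_mul_le (p := P) (q := P.derivative.derivative)
          omega
      have n3 := natDegree_sub_le (P * P.derivative.derivative) (P.derivative ^ 2)
      rw [natDegree_pow] at n3
      omega
    · exact pow_ne_zero _ fun h => Da (by simp [h])
  obtain ⟨C0, C0p, o2⟩ := o2.exists_pos
  have o3 : ∀ᶠ z in cobounded ℂ, 1 ≤ ‖P.eval z‖ :=
    (P.tendsto_norm_atTop (natDegree_pos_iff_degree_pos.1 hP) tendsto_norm_cobounded_atTop).eventually_ge_atTop 1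
  have o4 : ∀ᶠ z in cobounded ℂ, 1 ≤ ‖D.eval z‖ :=
    (D.tendsto_norm_atTop (by rw [dD]; exact natDegree_pos_iff_degree_pos.1 hP)
      tendsto_norm_cobounded_atTop).eventually_ge_atTop 1
  have o5 : ∀ᶠ z in cobounded ℂ, ρ + ‖a‖ ≤ ‖z‖ := tendsto_norm_cobounded_atTop.eventually_ge_atTop _
  obtain ⟨R, -, hR⟩ := (hasBasis_cobounded_norm (E := ℂ)).eventually_iff.1
    ((o1.def one_half_pos).and (o2.bound.and (o3.and (o4.and o5))))
  have cp := norm_pos_iff.2 c0
  have q1 : ∀ z, R ≤ ‖z‖ → ‖c * (P.eval z / D.eval z) - 1‖ ≤ 1 / 2 := fun z hz => by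
    obtain ⟨a1, -, -, a4, -⟩ := hR hz
    have d0 : 0 < ‖D.eval z‖ := by linarith
    have : c * (P.eval z / D.eval z) - 1 = -(P.derivative.eval z / D.eval z) := by
      have := norm_pos_iff.1 d0
      field_simp; rw [evD]; ring
    rw [this, norm_neg, norm_div, div_le_iff₀ d0]
    exact a1
  have q2 : ∀ z, R ≤ ‖z‖ → D.eval z ≠ 0 → ‖P.eval z / D.eval z‖ ≤ 2 / ‖c‖ := fun z hz _ => by
    have := norm_sub_norm_le (c * (P.eval z / D.eval z)) 1
    rw [norm_mul, norm_one] at this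
    rw [le_div_iff₀ cp]
    linarith [q1 z hz]
  have q3 : ∀ w, R ≤ ‖w‖ → P.eval w ≠ 0 ∧ ρ ≤ ‖w - a‖ := fun w hw => by
    obtain ⟨-, -, a3, -, a5⟩ := hR hw
    exact ⟨norm_pos_iff.1 (by linarith), by linarith [norm_sub_norm_le w a]⟩
  let x : ℂ → ℝ := fun z => -(c * z).re
  have xl : ∀ z, x z ≤ ‖c‖ * ‖z‖ := fun z => by
    rw [← norm_mul]; exact (neg_le_abs _).trans (Complex.abs_re_le_norm _)
  obtain ⟨Cc, hC⟩ : ∃ Cc, Cc = C0 * ‖c‖ ^ 2 := ⟨_, rfl⟩
  have Cp : 0 ≤ Cc := by rw [hC]; positivity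
  obtain ⟨M, hM⟩ : ∃ M, M = max (max 1 (8 * Cc)) (‖c‖ * R) := ⟨_, rfl⟩
  have M1 : 1 ≤ M := hM ▸ (le_max_left _ _).trans (le_max_left _ _)
  have M2 : 8 * Cc ≤ M := hM ▸ (le_max_right _ _).trans (le_max_left _ _)
  have M3 : ‖c‖ * R ≤ M := hM ▸ le_max_right _ _
  have zR : ∀ z, M ≤ x z → R ≤ ‖z‖ := fun z hz => le_of_mul_le_mul_left (M3.trans (hz.trans (xl z))) cp
  have w0 : ∀ z, M ≤ x z → 1 / 2 ≤ 1 - 4 * Cc / x z := fun z hz => by
    have : 4 * Cc / x z ≤ 1 / 2 := by rw [div_le_iff₀ (by linarith)]; linarith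
    linarith
  have key : ∀ k : ℕ, ∀ z, M ≤ x z → ∃ d, Good P.eval a ρ z d ∧
      (1 - 4 * Cc / x z) * ((x z + k / 2) / ‖c‖ - R) ≤ ‖d‖ := by
    intro k
    induction k with
    | zero =>
      intro z hz
      refine ⟨_, start q3 (zR z hz), ?_⟩
      have h2 : x z / ‖c‖ ≤ ‖z‖ := by rw [div_le_iff₀ cp]; linarith [xl z]
      have h3 : R ≤ x z / ‖c‖ := by rw [le_div_iff₀ cp]; linarith
      have h4 : 0 ≤ 4 * Cc / x z := div_nonneg (by linarith) (by linarith)
      rw [Complex.norm_real, Real.norm_of_nonneg (sub_nonneg.2 (zR z hz)), Nat.cast_zero, zero_div, add_zero]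
      nlinarith
    | succ k ih =>
      intro z hz
      have hx : x z + 1 / 2 ≤ x (N z) := by
        have := (abs_le.1 ((Complex.abs_re_le_norm _).trans (q1 z (zR z hz)))).1
        simp only [x, N, mul_sub, Complex.sub_re, Complex.one_re] at this ⊢
        linarith
      obtain ⟨d, ⟨φ, dφ, f1, f2, rfl⟩, hd2⟩ := ih (N z) (by linarith)
      obtain ⟨-, a2, -, a4, -⟩ := hR (zR z hz)
      have Dz : D.eval z ≠ 0 := norm_pos_iff.1 (by linarith)
      obtain ⟨ψ, g0, g1⟩ := lift (N := N) P.continuous D.continuous (fun _ => rfl) hd h0 h1 q2 dφ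
        (fun w hw => (f1 w hw).1) Dz f2
      have b0 : (0 : ℂ) ∈ ball (0 : ℂ) 1 := mem_ball_self one_pos
      refine ⟨_, ⟨ψ, fun w hw => (g1 w hw).2.2.differentiableAt.differentiableWithinAt,
        fun w hw => ⟨(g1 w hw).2.1, not_lt.1 fun h => ?_⟩, g0, rfl⟩, ?_⟩
      · have := hρ _ h
        rw [(g1 w hw).1] at this
        linarith [(f1 w hw).2]
      · have n0 := norm_pos_iff.2 (h1 z Dz (q3 z (zR z hz)).1)
        have x0 : 0 < x z := by linarith
        have z0 : 0 < ‖z‖ := by nlinarith [xl z, norm_nonneg z]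
        have n1 : ‖N' z‖ ≤ 1 + Cc / x z ^ 2 := by
          have e : N' z = 1 + (X ^ 2 * (P * P.derivative.derivative - P.derivative ^ 2)).eval z /
              ((D ^ 2).eval z * z ^ 2) := by
            have := norm_pos_iff.1 z0
            have e2 : D.derivative.eval z = c * P.derivative.eval z + P.derivative.derivative.eval z := by
              simp [hD]
            simp only [N', eval_add, eval_mul, eval_C, eval_pow, eval_X, eval_sub, e2]
            field_simp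
            rw [evD]; ring
          rw [e]
          refine (norm_add_le _ _).trans (add_le_add norm_one.le ?_)
          have d2 : 0 < ‖(D ^ 2).eval z‖ := norm_pos_iff.2 (by rw [eval_pow]; exact pow_ne_zero _ Dz)
          rw [norm_div, norm_mul ((D ^ 2).eval z), norm_pow, div_le_div_iff₀ (by positivity) (by positivity), hC]
          have h5 : x z ^ 2 ≤ (‖c‖ * ‖z‖) ^ 2 := pow_le_pow_left₀ x0.le (xl z) 2
          calc _ ≤ C0 * ‖(D ^ 2).eval z‖ * (‖c‖ * ‖z‖) ^ 2 := mul_le_mul a2 h5 (by positivity) (by positivity)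
            _ = _ := by ring
        rw [(g1 0 b0).2.2.deriv, g0, norm_div, le_div_iff₀ n0]
        have h6 := wt Cp rfl (M1.trans hz) hx
        have k0 : (0 : ℝ) ≤ k := k.cast_nonneg
        have h7 : 0 ≤ (x z + (k + 1 : ℕ) / 2) / ‖c‖ - R := by
          rw [sub_nonneg, le_div_iff₀ cp]; push_cast; linarith
        have h8 : (x z + (k + 1 : ℕ) / 2) / ‖c‖ - R ≤ (x (N z) + k / 2) / ‖c‖ - R := by
          refine sub_le_sub_right (div_le_div_of_nonneg_right ?_ cp.le) _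
          push_cast; linarith
        have h9 := w0 z hz
        calc _ ≤ (1 - 4 * Cc / x z) * ((x z + (k + 1 : ℕ) / 2) / ‖c‖ - R) * (1 + Cc / x z ^ 2) :=
              mul_le_mul_of_nonneg_left n1 (mul_nonneg (by linarith) h7)
          _ = (1 - 4 * Cc / x z) * (1 + Cc / x z ^ 2) * ((x z + (k + 1 : ℕ) / 2) / ‖c‖ - R) := by ring
          _ ≤ _ := (mul_le_mul h6 h8 h7 (by linarith [w0 (N z) (by linarith)])).trans hd2
  have xz : x (-M / c) = M := by simp only [x]; rw [mul_div_cancel₀ _ c0]; simp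
  obtain ⟨k, hk⟩ := exists_nat_gt (4 * ‖c‖ * (2 / ρ * ‖-M / c - a‖ ^ 2))
  obtain ⟨d, g, hd2⟩ := key k _ xz.ge
  have b := bound ρ0 g
  have h9 := w0 _ xz.ge
  rw [xz] at hd2 h9
  have h7 : k / 2 / ‖c‖ ≤ (M + k / 2) / ‖c‖ - R := by
    rw [add_div, le_sub_iff_add_le, add_comm]
    exact add_le_add_left (by rw [le_div_iff₀ cp]; linarith) _
  have h8 : 0 ≤ (k : ℝ) / 2 / ‖c‖ := by positivity
  have h10 : 1 / 2 * (k / 2 / ‖c‖) ≤ ‖d‖ := (mul_le_mul h9 h7 h8 (by linarith)).trans hd2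
  have h11 : (k : ℝ) = 4 * ‖c‖ * (1 / 2 * (k / 2 / ‖c‖)) := by field_simp; ring
  nlinarith

end Pool.Agent.H.MP_3dabd4_an
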